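import Pool.Agent.Helper52.BP.Sheet

/-! Row BNS (helper20): discrepancy of the generalized inner product. -/

set_option autoImplicit false

namespace Pool.Helper52.BP

open Finset

namespace BNS20

/-- number of columns in `D` without zero -/
def od {q s : ℕ} (D : Finset (Fin s)) (u : Fin q → Fin s → Bool) : ℕ :=
  (D.filter (fun l => ∀ j, u j l = true)).card

theorem sgn {s : ℕ} (D : Finset (Fin s)) (c : ℝ) (p : Fin s → Prop) [DecidablePred p] :
    c ^ (D.filter p).card = ∏ l ∈ D, (if p l then c else 1) := by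
  rw [← Finset.prod_const, Finset.prod_filter]

theorem prodD {s : ℕ} (D : Finset (Fin s)) (g : Fin s → ℝ) :
    ∏ l ∈ D, g l = ∏ l, (if l ∈ D then g l else 1) := by
  rw [Finset.prod_ite_mem, Finset.univ_inter]

theorem sumprod {s : ℕ} (F : Fin s → Bool → ℝ) :
    ∑ x : Fin s → Bool, ∏ l, F l (x l) = ∏ l, ∑ b, F l b := by
  rw [Finset.prod_univ_sum, Fintype.piFinset_univ]

theorem dsum {s : ℕ} (D : Finset (Fin s)) (ν : ℝ) (x : Fin s → Bool) :
    ∑ y : Fin s → Bool, ν ^ (D.filter (fun l => x l ≠ y l)).card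
      = 2 ^ s * ((1 + ν) / 2) ^ D.card := by
  have h1 : ∀ y : Fin s → Bool, ν ^ (D.filter (fun l => x l ≠ y l)).card
      = ∏ l, (if l ∈ D then (if x l ≠ y l then ν else 1) else 1) := by
    intro y
    rw [sgn, prodD]
  simp_rw [h1]
  rw [sumprod (fun l b => if l ∈ D then (if x l ≠ b then ν else 1) else 1)]
  have h2 : ∀ l : Fin s, ∑ b : Bool, (if l ∈ D then (if x l ≠ b then ν else 1) else 1)
      = 2 * (if l ∈ D then (1 + ν) / 2 else 1) := by
    intro l
    by_cases hl : l ∈ D
    · cases hx : x l <;> simp [hl] <;> ring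
    · simp [hl]
  simp_rw [h2]
  rw [Finset.prod_mul_distrib, ← prodD]
  simp [div_pow]

theorem base0 {s : ℕ} (D : Finset (Fin s)) (hD : D.Nonempty) :
    ∑ x : Fin s → Bool, ∏ l ∈ D, (if x l = true then (-1 : ℝ) else 1) = 0 := by
  have h1 : ∀ x : Fin s → Bool, ∏ l ∈ D, (if x l = true then (-1 : ℝ) else 1)
      = ∏ l, (if l ∈ D then (if x l = true then (-1 : ℝ) else 1) else 1) := fun x => prodD D _
  simp_rw [h1]
  rw [sumprod (fun l b => if l ∈ D then (if b = true then (-1 : ℝ) else 1) else 1)]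
  obtain ⟨l, hl⟩ := hD
  refine Finset.prod_eq_zero (Finset.mem_univ l) ?_
  simp [hl]

theorem sumcons {q : ℕ} {X : Type} [Fintype X] [DecidableEq X] (F : (Fin (q + 1) → X) → ℝ) :
    ∑ u, F u = ∑ v : Fin q → X, ∑ x : X, F (Fin.cons x v) := by
  rw [← (Fin.consEquiv (fun _ => X)).sum_comp, Fintype.sum_prod_type, Finset.sum_comm]
  rfl

theorem od_cons {q s : ℕ} (D : Finset (Fin s)) (x : Fin s → Bool) (v : Fin q → Fin s → Bool) :
    (-1 : ℝ) ^ od D (Fin.cons x v : Fin (q + 1) → Fin s → Bool)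
      = ∏ l ∈ D, (if x l = true ∧ ∀ j, v j l = true then (-1 : ℝ) else 1) := by
  unfold od
  rw [sgn]
  refine Finset.prod_congr rfl (fun l _ => ?_)
  simp only [Fin.forall_fin_succ, Fin.cons_zero, Fin.cons_succ]

theorem od_mul {q s : ℕ} (D : Finset (Fin s)) (x y : Fin s → Bool) (v : Fin q → Fin s → Bool) :
    (-1 : ℝ) ^ od D (Fin.cons x v : Fin (q + 1) → Fin s → Bool)
      * (-1 : ℝ) ^ od D (Fin.cons y v : Fin (q + 1) → Fin s → Bool)
      = (-1 : ℝ) ^ od (D.filter (fun l => x l ≠ y l)) v := by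
  rw [od_cons, od_cons, ← Finset.prod_mul_distrib]
  unfold od
  rw [sgn, Finset.prod_filter]
  refine Finset.prod_congr rfl (fun l _ => ?_)
  by_cases hv : ∀ j, v j l = true
  · cases hx : x l <;> cases hy : y l <;> simp [hv]
  · simp [hv]

theorem nu_step (q : ℕ) : (1 + (1 - (1 / 4 : ℝ) ^ q)) / 2 ≤ (1 - (1 / 4 : ℝ) ^ (q + 1)) ^ 2 := by
  have h : (0 : ℝ) ≤ ((1 / 4 : ℝ) ^ q) ^ 2 := by positivity
  have e : (1 / 4 : ℝ) ^ (q + 1) = (1 / 4 : ℝ) ^ q * (1 / 4) := pow_succ _ _
  rw [e]
  nlinarith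

theorem nu_nn (q : ℕ) : (0 : ℝ) ≤ 1 - (1 / 4 : ℝ) ^ q := by
  have : (1 / 4 : ℝ) ^ q ≤ 1 := pow_le_one₀ (by norm_num) (by norm_num)
  linarith

theorem main (q : ℕ) (hq : 1 ≤ q) : ∀ (s : ℕ) (D : Finset (Fin s))
    (ph : Fin q → (Fin q → Fin s → Bool) → ℝ),
    (∀ j u, |ph j u| ≤ 1) → (∀ j u u', (∀ j', j' ≠ j → u j' = u' j') → ph j u = ph j u') →
    |∑ u : Fin q → Fin s → Bool, (-1 : ℝ) ^ od D u * ∏ j, ph j u| ≤
      (1 - (1 / 4 : ℝ) ^ q) ^ D.card * 2 ^ (q * s) := by
  induction q, hq using Nat.le_induction with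
  | base =>
    intro s D ph h1 h2
    rw [sumcons]
    set c : ℝ := ph 0 (fun _ _ => true) with hc
    have e : ∀ (v : Fin 0 → Fin s → Bool) (x : Fin s → Bool),
        (-1 : ℝ) ^ od D (Fin.cons x v : Fin (0 + 1) → Fin s → Bool) * ∏ j, ph j (Fin.cons x v)
          = (∏ l ∈ D, (if x l = true then (-1 : ℝ) else 1)) * c := by
      intro v x
      have e1 : ∏ j, ph j (Fin.cons x v) = c := by
        rw [Fin.prod_univ_one]
        refine h2 0 _ _ (fun j' hj' => ?_)
        exact absurd (Subsingleton.elim j' 0) hj'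
      rw [e1, od_cons]
      congr 1
      refine Finset.prod_congr rfl (fun l _ => ?_)
      simp
    rw [Finset.sum_congr rfl (fun v _ => Finset.sum_congr rfl (fun x _ => e v x))]
    have hcard : Fintype.card (Fin 0 → Fin s → Bool) = 1 := by simp
    rw [Finset.sum_const, Finset.card_univ, hcard, one_smul, ← Finset.sum_mul, abs_mul]
    rcases D.eq_empty_or_nonempty with rfl | hD
    · simp only [Finset.prod_empty, Finset.sum_const, Finset.card_univ, Finset.card_empty, pow_zero,
        one_mul]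
      have h5 : |c| ≤ 1 := h1 0 (fun _ _ => true)
      have h6 : |(Fintype.card (Fin s → Bool)) • (1 : ℝ)| = 2 ^ s := by
        simp
      rw [h6]
      have h7 : (0 : ℝ) ≤ 2 ^ s := by positivity
      nlinarith
    · rw [base0 D hD]
      simp only [abs_zero, zero_mul]
      have := nu_nn 1
      positivity
  | succ q hq ih =>
    intro s D ph h1 h2
    set ν : ℝ := 1 - (1 / 4 : ℝ) ^ q with hν
    have hν0 : 0 ≤ ν := nu_nn q
    rw [sumcons]
    set g : (Fin q → Fin s → Bool) → ℝ := fun v => ph 0 (Fin.cons (fun _ => true) v) with hg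
    set a : (Fin s → Bool) → (Fin q → Fin s → Bool) → ℝ := fun x v =>
      (-1 : ℝ) ^ od D (Fin.cons x v : Fin (q + 1) → Fin s → Bool)
        * ∏ i : Fin q, ph i.succ (Fin.cons x v) with ha
    have e1 : ∀ (v : Fin q → Fin s → Bool) (x : Fin s → Bool),
        (-1 : ℝ) ^ od D (Fin.cons x v : Fin (q + 1) → Fin s → Bool) * ∏ j, ph j (Fin.cons x v)
          = g v * a x v := by
      intro v x
      rw [Fin.prod_univ_succ]
      have e2 : ph 0 (Fin.cons x v) = g v := by
        refine h2 0 _ _ (fun j' hj' => ?_)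
        obtain ⟨i, rfl⟩ := Fin.exists_succ_eq.2 hj'
        simp
      rw [e2, ha]
      ring
    simp_rw [e1]
    simp_rw [← Finset.mul_sum]
    -- Cauchy-Schwarz
    have cs := Finset.sum_mul_sq_le_sq_mul_sq (Finset.univ : Finset (Fin q → Fin s → Bool)) g
      (fun v => ∑ x, a x v)
    have hg2 : ∑ v, g v ^ 2 ≤ 2 ^ (q * s) := by
      have : ∀ v ∈ (Finset.univ : Finset (Fin q → Fin s → Bool)), g v ^ 2 ≤ 1 := by
        intro v _
        have := h1 0 (Fin.cons (fun _ => true) v)
        rw [← sq_abs]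
        have h0 := abs_nonneg (g v)
        have h3 : |g v| ≤ 1 := this
        nlinarith
      refine (Finset.sum_le_card_nsmul _ _ _ this).trans ?_
      rw [Finset.card_univ, Fintype.card_fun, Fintype.card_fun, Fintype.card_bool, Fintype.card_fin,
        Fintype.card_fin, nsmul_eq_mul, mul_one, ← pow_mul, mul_comm s q]
      push_cast
      exact le_refl _
    have hpair : ∀ x y : Fin s → Bool, ∑ v, a x v * a y v
        ≤ ν ^ (D.filter (fun l => x l ≠ y l)).card * 2 ^ (q * s) := by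
      intro x y
      have e3 : ∀ v, a x v * a y v = (-1 : ℝ) ^ od (D.filter (fun l => x l ≠ y l)) v
          * ∏ i : Fin q, (ph i.succ (Fin.cons x v) * ph i.succ (Fin.cons y v)) := by
        intro v
        rw [← od_mul, Finset.prod_mul_distrib]
        simp only [ha]
        ring
      simp_rw [e3]
      refine (le_abs_self _).trans (ih s (D.filter (fun l => x l ≠ y l))
        (fun i v => ph i.succ (Fin.cons x v) * ph i.succ (Fin.cons y v)) ?_ ?_)
      · intro i v
        rw [abs_mul]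
        have h3 := h1 i.succ (Fin.cons x v)
        have h4 := h1 i.succ (Fin.cons y v)
        exact mul_le_one₀ h3 (abs_nonneg _) h4
      · intro i v v' hv
        have h5 : ∀ z : Fin s → Bool, ph i.succ (Fin.cons z v) = ph i.succ (Fin.cons z v') := by
          intro z
          refine h2 _ _ _ (fun j' hj' => ?_)
          rcases Fin.eq_zero_or_eq_succ j' with rfl | ⟨k, rfl⟩
          · simp
          · simp only [Fin.cons_succ]
            refine hv k (fun hk => hj' ?_)
            rw [hk]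
        simp only [h5]
    have hh : ∑ v, (∑ x, a x v) ^ 2 ≤ 2 ^ s * (2 ^ s * ((1 + ν) / 2) ^ D.card) * 2 ^ (q * s) := by
      have e4 : ∑ v, (∑ x, a x v) ^ 2 = ∑ x, ∑ y, ∑ v, a x v * a y v := by
        have e5 : ∀ v, (∑ x, a x v) ^ 2 = ∑ x, ∑ y, a x v * a y v := by
          intro v
          rw [sq, Finset.sum_mul_sum]
        simp_rw [e5]
        rw [Finset.sum_comm]
        refine Finset.sum_congr rfl (fun x _ => ?_)
        rw [Finset.sum_comm]
      rw [e4]
      refine (Finset.sum_le_sum (fun x _ => Finset.sum_le_sum (fun y _ => hpair x y))).trans ?_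
      simp_rw [← Finset.sum_mul]
      simp_rw [dsum]
      simp
    have hfin : (∑ v, g v * ∑ x, a x v) ^ 2
        ≤ ((1 - (1 / 4 : ℝ) ^ (q + 1)) ^ D.card * 2 ^ ((q + 1) * s)) ^ 2 := by
      refine cs.trans ((mul_le_mul hg2 hh (Finset.sum_nonneg (fun v _ => sq_nonneg _))
        (by positivity)).trans ?_)
      have e6 : (2 : ℝ) ^ (q * s) * (2 ^ s * (2 ^ s * ((1 + ν) / 2) ^ D.card) * 2 ^ (q * s))
          = ((1 + ν) / 2) ^ D.card * (2 ^ ((q + 1) * s)) ^ 2 := by
        rw [add_mul, pow_add, one_mul]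
        ring
      rw [e6, mul_pow]
      refine mul_le_mul_of_nonneg_right ?_ (by positivity)
      rw [← pow_mul, mul_comm D.card 2, pow_mul]
      exact pow_le_pow_left₀ (by positivity) (nu_step q) _
    have hnn : (0 : ℝ) ≤ (1 - (1 / 4 : ℝ) ^ (q + 1)) ^ D.card * 2 ^ ((q + 1) * s) := by
      have := nu_nn (q + 1)
      positivity
    exact abs_le_of_sq_le_sq hfin hnn

end BNS20

theorem st_BNS : ST_BNS := by
  intro q s ph hq h1 h2
  have h := BNS20.main q hq s Finset.univ ph h1 h2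
  simpa [BNS20.od, ones] using h

end Pool.Helper52.BP
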